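import Pool.Agent.Q46.SL.Tools
import Pool.Agent.Q46.SL.Mord

/-!
# Almost prime quadruples `x, x + 2, x + 6, x + 8`: discrete logarithms and polynomials

We look for `x` such that all of `x, x + 2, x + 6, x + 8` (in particular the triple `x, x + 2, x + 6`) have at most `R` prime factors, all
larger than `p ^ κ`.

Let `p` be a large prime, `g` a nonzero residue and `f_1, ..., f_s` polynomials modulo `p`, linearly independent together with `1`. In
all boxes above a certain size there are many exponents `x` such that ALL of `x` and the least residues of `f_1(g ^ x)`, ...,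
`f_s(g ^ x)` have the property. Here the property is: `x, x + 2, x + 6, x + 8` have at most `R` prime factors, all larger than `p ^ κ`. The lower bound is of the expected order of magnitude (`m = 0`).

In addition the numbers avoid arbitrary residue classes, at most `m` classes `E q` modulo each prime `q ≤ z`, as long as there is no
local obstruction; `m = 0` is the case without classes. The exponent `κ`, the number `R` and the constant `cc` do not depend on the
classes.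

Design and proof: helper46 (modules `Pool.Agent.Q46.SV.*`, `Pool.Agent.Q46.SL.*`): the vectors of the residues in question are
equidistributed modulo all small integers with a power saving, by bounds for exponential sums; the fundamental lemma of the
sieve is applied to the vectors.
-/

set_option autoImplicit false

namespace Pool.Agent.Results.MP_3efbeb_nt.LogarithmsAndPolynomials

open Finset Polynomial
open Pool.Agent.Q46.SL hiding Almost

/-- `n` is not zero and has at most `R` prime factors (counted with multiplicity), all larger than `z` -/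
def Almost (z : ℝ) (R : ℕ) (n : ℤ) : Prop :=
  n ≠ 0 ∧ n.natAbs.primeFactorsList.length ≤ R ∧ ∀ q : ℕ, q.Prime → (q : ℤ) ∣ n → z < q

/-- `x` is positive, `x, x + 2, x + 6, x + 8` have at most `R` prime factors, all larger than `z`, and `x` avoids the classes `E q`, `q ≤ z` -/
def Good (z : ℝ) (R : ℕ) (E : ℕ → Finset ℕ) (x : ℤ) : Prop :=
  0 < x ∧ Almost z R (x) ∧ Almost z R (x + 2) ∧ Almost z R (x + 6) ∧ Almost z R (x + 8) ∧ ∀ q : ℕ, q.Prime → (q : ℝ) ≤ z → (x % q).toNat ∉ E q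

/-- `E q` has at most `m` elements, and some residue `a` outside `E q` has `q ∤ a`, `q ∤ a + 2`, `q ∤ a + 6`, `q ∤ a + 8` -/
def Adm (m : ℕ) (E : ℕ → Finset ℕ) : Prop :=
  ∀ q : ℕ, q.Prime → (E q).card ≤ m ∧ ∃ a < q, a ∉ E q ∧ ¬ (q : ℤ) ∣ a ∧ ¬ (q : ℤ) ∣ a + 2 ∧ ¬ (q : ℤ) ∣ a + 6 ∧ ¬ (q : ℤ) ∣ a + 8

/-- the polynomials and the classes -/
noncomputable def sysE (m : ℕ) (E : ℕ → Finset ℕ) (hE : Adm m E) : PE 4 m 4 where
  f := ![X, X + C 2, X + C 6, X + C 8]
  E := E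
  deg := by
    rw [Fin.sum_univ_four]
    simp only [Matrix.cons_val]
    have d0 : (X : ℤ[X]).natDegree ≤ 1 := by compute_degree
    have d1 : (X + C 2 : ℤ[X]).natDegree ≤ 1 := by compute_degree
    have d2 : (X + C 6 : ℤ[X]).natDegree ≤ 1 := by compute_degree
    have d3 : (X + C 8 : ℤ[X]).natDegree ≤ 1 := by compute_degree
    omega
  adm := by
    intro q hq
    obtain ⟨h1, a, ha, haE, h2, h3, h4, h5⟩ := hE q hq
    refine ⟨h1, a, ha, haE, fun j => ?_⟩
    fin_cases j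
    · simpa using h2
    · simpa using h3
    · simpa using h4
    · simpa using h5

lemma good_of {m : ℕ} {E : ℕ → Finset ℕ} (hE : Adm m E) {κ M : ℝ} (hM : (9 : ℝ) ≤ M) {x : ℤ}
    (h : Near 1 (sysE m E hE) κ M x) (hx : (x : ℝ) ≤ M) :
    Good (M ^ κ) ⌊((1 : ℕ) + (4 : ℕ) + 1 : ℝ) / κ⌋₊ E x := by
  obtain ⟨h0, h12⟩ := h
  obtain ⟨h1, h2⟩ := h12 (by
    intro j
    rw [pow_one]
    fin_cases j
    · exact cb_mono (cb_X) (le_trans (by norm_num) hM)
    · exact cb_mono (cb_add (cb_X) (cb_C 2)) (le_trans (by norm_num) hM)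
    · exact cb_mono (cb_add (cb_X) (cb_C 6)) (le_trans (by norm_num) hM)
    · exact cb_mono (cb_add (cb_X) (cb_C 8)) (le_trans (by norm_num) hM)) hx
  refine ⟨h0, ?_, ?_, ?_, ?_, h2⟩
  · simpa [sysE, Almost, Pool.Agent.Q46.SL.Almost] using h1 0
  · simpa [sysE, Almost, Pool.Agent.Q46.SL.Almost] using h1 1
  · simpa [sysE, Almost, Pool.Agent.Q46.SL.Almost] using h1 2
  · simpa [sysE, Almost, Pool.Agent.Q46.SL.Almost] using h1 3

/-- `x, x + 2, x + 6, x + 8` are almost primes for an exponent and for the values of `s` polynomials at the power. -/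
theorem result (m : ℕ) (r s : ℕ) (hr : 1 ≤ r) (ε : ℝ) (hε : 0 < ε) (hε1 : ε ≤ 1) :
    ∃ κ : ℝ, 0 < κ ∧ ∃ cc : ℝ, 0 < cc ∧ ∃ R p₀ : ℕ, ∀ p : ℕ, p₀ ≤ p → ∀ [Fact p.Prime], ∀ E : ℕ → Finset ℕ, Adm m E → ∀ (g : (ZMod p)ˣ) (f : Fin s → (ZMod p)[X]),
      (∀ i, (f i).natDegree ≤ r) → (∀ c : Fin s → ZMod p, (∑ i, C (c i) * f i).natDegree = 0 → c = 0) →
      ∀ (A₀ N₀ : ℕ) (A N : Fin s → ℕ), A₀ + N₀ ≤ orderOf g → (∀ i, A i + N i ≤ p) →
      (p : ℝ) ^ ε ≤ N₀ → (∀ i, (p : ℝ) ^ ε ≤ N i) →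
      (p : ℝ) ^ ((2 * s + 1) * r + ε) * ((orderOf g : ℕ) : ℝ) ^ (r - 1) ≤ ((N₀ : ℝ) * ∏ i, (N i : ℝ)) ^ (2 * r) →
      ∃ G : Finset ℕ, cc * ((N₀ : ℝ) * (∏ i, (N i : ℝ)) / (p : ℝ) ^ s) / Real.log p ^ ((s + 1) * (m + 4)) ≤ G.card ∧
        ∀ x ∈ G, (A₀ ≤ x ∧ x < A₀ + N₀) ∧
          (∀ i, A i ≤ ((f i).eval ((g : ZMod p) ^ x)).val ∧ ((f i).eval ((g : ZMod p) ^ x)).val < A i + N i) ∧
          Good ((p : ℝ) ^ κ) R E x ∧ ∀ i, Good ((p : ℝ) ^ κ) R E ((f i).eval ((g : ZMod p) ^ x)).val := by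
  obtain ⟨κ, hκ, cc, hcc, p₀, h⟩ := Pool.Agent.Q46.SL.logs (Near 1 : PE 4 m 4 → ℝ → ℝ → ℤ → Prop)
    (lg (m + 4)) (fun r _ => csN 4 m 4 1 r) r s hr ε hε hε1
  refine ⟨κ, hκ, cc, hcc, ⌊((1 : ℕ) + (4 : ℕ) + 1 : ℝ) / κ⌋₊, max 9 p₀, ?_⟩
  intro p hp _ E hE g f hf hind A₀ N₀ A N hA0 hA hN0 hN hP
  have hpr : (9 : ℝ) ≤ p := by exact_mod_cast (le_max_left _ _).trans hp
  have hord := ord_le' g
  obtain ⟨G, hG, hG2⟩ := h p ((le_max_right _ _).trans hp) (sysE m E hE) g f hf hind A₀ N₀ A N hA0 hA hN0 hN hP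
  refine ⟨G, le_trans (cnt le_rfl (div_nonneg (mul_nonneg (Nat.cast_nonneg _)
    (prod_nonneg fun _ _ => Nat.cast_nonneg _)) (by positivity)) (log0 p) _ _) hG, ?_⟩
  intro x hx
  obtain ⟨a1, a2, a3, a4⟩ := hG2 x hx
  exact ⟨a1, a2, good_of hE hpr a3 (by exact_mod_cast (by omega : x ≤ p)), fun i =>
    good_of hE hpr (a4 i) (by exact_mod_cast (ZMod.val_lt _).le)⟩

end Pool.Agent.Results.MP_3efbeb_nt.LogarithmsAndPolynomials
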