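import Pool.Agent.Q315.RD

/-!
# Several prime quadruples at arbitrary prescribed distances, almost primes with restricted digits in all short intervals

Let `g ≥ 2` be a base and `K` a large number of digits. For every `i < K` let `A i` be an arbitrary non-empty set of digits. Nothing
is assumed about these sets except that they are not too small on average: the number `|A 0| ⋯ |A (K - 1)|` of the integers
`t < g ^ K` whose `i`-th digit belongs to `A i` for all `i < K` is at least `exp (- c K) g ^ K`, where `c > 0` does not depend on the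
base (`Rich`). Let `N ≤ g ^ (E K)` be arbitrary, so that the interval `[N, N + g ^ K)` may be very short, let `s ≥ 1`, and let
`D 1, …, D s ≤ g ^ (E K)` be ANY multiples of the primes `≤ 4 s` (much larger or much smaller than the interval).

The number of the `n = N + t` in this interval with these `t` for which all the `s` quadruples
`n + D j, n + D j + 2, n + D j + 6, n + D j + 8` (in particular the triples `n + D j, n + D j + 2, n + D j + 6`) consist of numbers
with at most `r` prime factors, all larger than `g ^ (K / r)`, is at least `κ V |A 0| ⋯ |A (K - 1)|`, unless there is an obvious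
obstruction (no digit `d` in `A 0` such that the `4 s` numbers for `n = N + d` are prime to `g`); here `V` is the product of
`1 - ν (p) / p` over the primes `p ≤ g ^ K`, where `ν (p)` is the number of the residue classes `n` modulo `p` for which `p` divides
one of the `4 s` numbers, the expected order. The number of the `n = N + t` for which the `4 s` numbers are PRIMES is at most
`C V |A 0| ⋯ |A (K - 1)|`. The constants depend only on `s`, `E`, `r`, `g`: not on the sets `A i`, on `N` and on the distances.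

Proof. The theorem on almost prime values of polynomials at integers with restricted digits, uniform in the polynomial, of the
starting library (`Pool.Agent.Y816.PD.uni_fun`).
-/

set_option autoImplicit false

namespace Pool.Agent.Results.MP_3efbeb_nt.QuadruplesAtDistances

open Filter Finset Polynomial
open Pool.Agent.Q315.RD

/-- The shifts `0, 2, 6, 8` of the quadruple. -/
def quad : Fin 4 → ℕ := ![0, 2, 6, 8]

/-- The `4 s` numbers `n + D j + h`, `h = 0, 2, 6, 8` (`j < s`), `n = N + t`. -/
def member {s : ℕ} (N : ℕ) (D : Fin s → ℕ) (i : Fin s × Fin 4) (t : ℕ) : ℕ := N + t + D i.1 + quad i.2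

/-- the same numbers, numbered by `Fin (s * 4)` -/
def mem' (s N : ℕ) (D : Fin s → ℕ) (i : Fin (s * 4)) (t : ℕ) : ℕ := member N D (finProdFinEquiv.symm i) t

/-- The number of the residue classes modulo `p` of the `t` for which `p` divides one of the `4 s` numbers. -/
noncomputable def bad (s N : ℕ) (D : Fin s → ℕ) (p : ℕ) : ℕ := classes p fun t => ∃ i : Fin s × Fin 4, p ∣ member N D i t

/-- The product of `1 - ν (p) / p` over the primes `p ≤ y`. -/
noncomputable def expected (s N : ℕ) (D : Fin s → ℕ) (y : ℕ) : ℝ :=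
  ∏ p ∈ (Icc 1 y).filter Nat.Prime, (1 - (bad s N D p : ℝ) / p)

lemma density_mem (s N : ℕ) (D : Fin s → ℕ) (y : ℕ) : density (mem' s N D) y = expected s N D y := by
  unfold density expected bad
  apply prod_congr rfl
  intro p _
  have : (fun t => ∃ i, p ∣ mem' s N D i t) = fun t => ∃ i : Fin s × Fin 4, p ∣ member N D i t := by
    funext t
    exact propext ⟨fun ⟨i, hi⟩ => ⟨_, hi⟩, fun ⟨i, hi⟩ => ⟨finProdFinEquiv i, by
      unfold mem'; rw [Equiv.symm_apply_apply]; exact hi⟩⟩
  rw [this]

lemma forall_mem (s N : ℕ) (D : Fin s → ℕ) (t : ℕ) (P : ℕ → Prop) :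
    (∀ i, P (mem' s N D i t)) ↔ ∀ i : Fin s × Fin 4, P (member N D i t) :=
  ⟨fun h i => by
    have := h (finProdFinEquiv i)
    unfold mem' at this
    rwa [Equiv.symm_apply_apply] at this, fun h i => h _⟩

lemma quad_le (i : Fin 4) : quad i ≤ 8 := by fin_cases i <;> simp [quad]

/-- the quadruple has no local obstruction -/
lemma adm_quad (p : ℕ) (hp : p.Prime) : ∃ u : ℕ, ∀ i : Fin 4, ¬ p ∣ u + quad i := by
  have key : ∀ n : ℕ, n.Prime → (n + 2).Prime → (n + 6).Prime → (n + 8).Prime →
      (p ≠ n ∧ p ≠ n + 2 ∧ p ≠ n + 6 ∧ p ≠ n + 8) → ∀ i : Fin 4, ¬ p ∣ n + quad i := by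
    intro n h0 h1 h2 h3 hne i h
    fin_cases i
    · exact hne.1 ((Nat.prime_dvd_prime_iff_eq hp h0).1 h)
    · exact hne.2.1 ((Nat.prime_dvd_prime_iff_eq hp h1).1 h)
    · exact hne.2.2.1 ((Nat.prime_dvd_prime_iff_eq hp h2).1 h)
    · exact hne.2.2.2 ((Nat.prime_dvd_prime_iff_eq hp h3).1 h)
  by_cases hle : p ≤ 19
  · exact ⟨101, key 101 (by norm_num) (by norm_num) (by norm_num) (by norm_num) (by omega)⟩
  · exact ⟨11, key 11 (by norm_num) (by norm_num) (by norm_num) (by norm_num) (by omega)⟩

/-- no local obstruction -/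
lemma adm {s N : ℕ} {D : Fin s → ℕ} (hb : ∀ p : ℕ, p.Prime → p ≤ 4 * s → ∀ j, p ∣ D j) (p : ℕ) (hp : p.Prime) :
    ∃ t : ℕ, ∀ i : Fin s × Fin 4, ¬ p ∣ member N D i t := by
  classical
  by_cases hle : p ≤ 4 * s
  · obtain ⟨u, hu⟩ := adm_quad p hp
    refine ⟨(p - 1) * N + u, fun i hi => hu i.2 ?_⟩
    unfold member at hi
    have e0 : N + ((p - 1) * N + u) + D i.1 + quad i.2 = (p * N + D i.1) + (u + quad i.2) := by
      obtain ⟨m, rfl⟩ : ∃ m, p = m + 1 := ⟨p - 1, by have := hp.two_le; omega⟩
      simp only [Nat.add_sub_cancel]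
      ring
    rw [e0] at hi
    exact (Nat.dvd_add_right (dvd_add (Dvd.intro _ rfl) (hb p hp hle i.1))).1 hi
  · -- fewer than `p` bad classes
    by_contra hcon
    push Not at hcon
    have : Fact p.Prime := ⟨hp⟩
    choose φ hφ using hcon
    have hinj : Set.InjOn φ (range p : Set ℕ) := by
      intro a ha t ht hst
      have h1 := hφ a
      have h2 := hφ t
      rw [hst] at h1
      unfold member at h1 h2
      have h3 : (a : ℕ) % p = t % p := by
        have h4 : ((N + a + D (φ t).1 + quad (φ t).2 : ℕ) : ZMod p) = 0 := (ZMod.natCast_eq_zero_iff _ _).2 h1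
        have h5 : ((N + t + D (φ t).1 + quad (φ t).2 : ℕ) : ZMod p) = 0 := (ZMod.natCast_eq_zero_iff _ _).2 h2
        have h6 : (a : ZMod p) = (t : ZMod p) := by
          push_cast at h4 h5
          linear_combination h4 - h5
        exact (ZMod.natCast_eq_natCast_iff' a t p).1 h6
      rw [Nat.mod_eq_of_lt (by simpa using ha), Nat.mod_eq_of_lt (by simpa using ht)] at h3
      exact h3
    have hcard := card_le_card_of_injOn φ (s := range p) (t := (univ : Finset (Fin s × Fin 4))) (fun _ _ => by simp) hinj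
    rw [card_range, card_univ, Fintype.card_prod, Fintype.card_fin, Fintype.card_fin] at hcard
    omega

lemma poly {s N : ℕ} {D : Fin s → ℕ} (i : Fin s × Fin 4) :
    ∃ P : Polynomial ℤ, P.natDegree ≤ 1 ∧ ∀ t : ℕ, P.eval (t : ℤ) = (member N D i t : ℤ) := by
  refine ⟨X + C ((N + D i.1 + quad i.2 : ℕ) : ℤ), by compute_degree, fun t => ?_⟩
  simp only [eval_add, eval_C, eval_X]
  unfold member
  push_cast
  ring

/-- **Several prime quadruples at arbitrary prescribed distances, with restricted digits, in all short intervals.** -/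
theorem result (s E : ℕ) (hs : 1 ≤ s) :
    ∃ c : ℝ, 0 < c ∧ ∃ r₀ : ℕ, 2 ≤ r₀ ∧ ∀ r : ℕ, r₀ ≤ r → ∀ g : ℕ, 2 ≤ g → ∃ κ C : ℝ, 0 < κ ∧ 0 < C ∧
      ∀ᶠ K : ℕ in atTop, ∀ (N : ℕ) (D : Fin s → ℕ), N ≤ g ^ (E * K) → (∀ j, D j ≤ g ^ (E * K)) →
        (∀ p : ℕ, p.Prime → p ≤ 4 * s → ∀ j, p ∣ D j) → ∀ A : ℕ → Finset ℕ, Rich c g K A →
        ((∃ d ∈ A 0, ∀ i : Fin s × Fin 4, (member N D i d).Coprime g) →
          κ * expected s N D (g ^ K) * choices K A ≤
            count g K A fun t => ∀ i : Fin s × Fin 4, AlmostPrime (g ^ K) r (member N D i t)) ∧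
        (count g K A (fun t => ∀ i : Fin s × Fin 4, (member N D i t).Prime) : ℝ) ≤
          C * expected s N D (g ^ K) * choices K A := by
  obtain ⟨c, hc, r₀, hr₀, h⟩ := forms (s * 4) ((E + 4) * (s * 4)) (by omega)
  refine ⟨c, hc, r₀, hr₀, fun r hr g hg => ?_⟩
  obtain ⟨κ, C, hκ, hC, h1⟩ := h r hr g hg
  refine ⟨κ, C, hκ, hC, ?_⟩
  filter_upwards [h1, eventually_ge_atTop 10] with K hK hK1
  intro N D hN hb hbp A hA
  have hg1 : 1 ≤ g := by omega
  have hKg : K ≤ g ^ K := (Nat.lt_two_pow_self (n := K)).le.trans (Nat.pow_le_pow_left hg K)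
  choose P hP1 hP2 using fun i : Fin (s * 4) => poly (N := N) (D := D) (finProdFinEquiv.symm i)
  have h2 := hK (s * 4) (mem' s N D)
    ⟨∏ i, P i, (natDegree_prod_le _ _).trans ((sum_le_sum fun i _ => hP1 i).trans (by simp)), fun t => by
      rw [eval_prod]
      exact prod_congr rfl fun i _ => hP2 i t⟩
    (fun p hp => by
      obtain ⟨t, ht⟩ := adm (N := N) hbp p hp
      exact ⟨t, fun i => ht _⟩)
    (fun t _ i => by unfold mem' member; omega)
    (fun t ht => by
      have hone : ∀ i : Fin (s * 4), mem' s N D i t ≤ g ^ ((E + 4) * K) := by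
        intro i
        unfold mem' member
        set j := finProdFinEquiv.symm i with hj
        have hj2 := quad_le j.2
        have hE1 : g ^ (E * K) ≤ g ^ ((E + 1) * K) := Nat.pow_le_pow_right hg1 (by nlinarith)
        have hE2 : g ^ K ≤ g ^ ((E + 1) * K) := Nat.pow_le_pow_right hg1 (by nlinarith)
        have hE3 : D j.1 ≤ g ^ ((E + 1) * K) := (hb _).trans hE1
        calc N + t + D j.1 + quad j.2
            ≤ g ^ ((E + 1) * K) + g ^ ((E + 1) * K) + g ^ ((E + 1) * K) + 7 * g ^ ((E + 1) * K) := by
              have : 10 ≤ g ^ ((E + 1) * K) := (hK1.trans hKg).trans hE2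
              omega
          _ = 10 * g ^ ((E + 1) * K) := by ring
          _ ≤ (g ^ K * g ^ K * g ^ K) * g ^ ((E + 1) * K) := by
              apply Nat.mul_le_mul_right
              have h3 : 10 ≤ g ^ K := by omega
              nlinarith [Nat.mul_le_mul h3 h3]
          _ = g ^ ((E + 4) * K) := by rw [← pow_add, ← pow_add, ← pow_add]; congr 1; ring
      calc ∏ i, mem' s N D i t ≤ ∏ _i : Fin (s * 4), g ^ ((E + 4) * K) := prod_le_prod' fun i _ => hone i
        _ = (g ^ ((E + 4) * K)) ^ (s * 4) := by simp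
        _ = g ^ ((E + 4) * (s * 4) * K) := by rw [← pow_mul]; congr 1; ring) A hA
  rw [density_mem] at h2
  refine ⟨fun ⟨d, hd, hd1⟩ => ?_, ?_⟩
  · have h3 := h2.1 ⟨d, hd, fun i => hd1 _⟩
    refine h3.trans (le_of_eq ?_)
    congr 2
    funext t
    exact propext (forall_mem s N D t fun m => AlmostPrime (g ^ K) r m)
  · refine le_trans (le_of_eq ?_) h2.2
    congr 2
    funext t
    exact propext (forall_mem s N D t fun m => m.Prime).symm

end Pool.Agent.Results.MP_3efbeb_nt.QuadruplesAtDistances
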